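import Mathlib
import Pool.Agent.R500.MG.Few

set_option autoImplicit false

/-!
# Real solutions of `T (n + 2) = P T (n + 1) + T n`: blocks near integer solutions

`θ > 1` and `θ'` are real numbers with `θ + θ' = P`, `θ θ' = -1`.
-/

namespace Pool.Agent.R500.FB

open Filter Topology Set
open Pool.Agent.R500.MG (roughPart not_prime_rough)

/-- The real solutions. -/
noncomputable def T (θ θ' β B : ℝ) (n : ℕ) : ℝ := β * θ ^ n + B * θ' ^ n

/-- The `p`-rough part of `⌊T β B p⌋`. -/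
noncomputable def W (θ θ' β B : ℝ) (p : ℕ) : ℕ := roughPart p ⌊T θ θ' β B p⌋₊

/-- The integer solution with the initial values `g0`, `g1`. -/
def H (P g0 g1 : ℤ) : ℕ → ℤ
  | 0 => g0
  | 1 => g1
  | (n + 2) => P * H P g0 g1 (n + 1) + H P g0 g1 n

variable {θ θ' : ℝ} {P : ℤ}

lemma sq_eq (hs : θ + θ' = P) (hp : θ * θ' = -1) : θ ^ 2 = P * θ + 1 := by
  rw [← hs]; linear_combination -hp

lemma sq_eq' (hs : θ + θ' = P) (hp : θ * θ' = -1) : θ' ^ 2 = P * θ' + 1 := by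
  rw [← hs]; linear_combination -hp

lemma H_form (hs : θ + θ' = P) (hp : θ * θ' = -1) (g0 g1 : ℤ) (n : ℕ) :
    (H P g0 g1 n : ℝ) * (θ - θ') = (g1 - θ' * g0) * θ ^ n + (θ * g0 - g1) * θ' ^ n := by
  induction n using Nat.twoStepInduction with
  | zero => simp only [H, pow_zero]; ring
  | one => simp only [H, pow_one]; ring
  | more n h1 h2 =>
    have e : (H P g0 g1 (n + 2) : ℝ) = P * H P g0 g1 (n + 1) + H P g0 g1 n := by
      simp only [H]; push_cast; ring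
    rw [e, add_mul, mul_assoc, h2, h1, pow_add θ n 2, pow_add θ' n 2, sq_eq hs hp, sq_eq' hs hp]
    ring

lemma H_dvd {P g0 g1 d : ℤ} (h0 : d ∣ g0) (h1 : d ∣ g1) (n : ℕ) : d ∣ H P g0 g1 n := by
  induction n using Nat.twoStepInduction with
  | zero => exact h0
  | one => exact h1
  | more n h2 h3 => exact Dvd.dvd.add (Dvd.dvd.mul_left h3 _) h2

lemma conj_eq (hθ : 1 < θ) (hp : θ * θ' = -1) : θ' = -(1 / θ) := by
  have : θ ≠ 0 := by linarith
  field_simp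
  linarith

lemma diff_ge (hθ : 1 < θ) (hp : θ * θ' = -1) : 2 ≤ θ - θ' := by
  have h0 : 0 < θ := by linarith
  have h1 : θ * (θ - θ') = θ ^ 2 + 1 := by linear_combination -hp
  have h2 : θ * 2 ≤ θ * (θ - θ') := by rw [h1]; nlinarith
  exact le_of_mul_le_mul_left h2 h0

lemma conj_odd (hθ : 1 < θ) (hp : θ * θ' = -1) {j : ℕ} (hj : Odd j) : θ' ^ j = -(1 / θ ^ j) := by
  rw [conj_eq hθ hp, hj.neg_pow, one_div_pow]

lemma conj_even (hθ : 1 < θ) (hp : θ * θ' = -1) {j : ℕ} (hj : Even j) : θ' ^ j = 1 / θ ^ j := by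
  rw [conj_eq hθ hp, hj.neg_pow, one_div_pow]

/-- near an integer solution divisible by the square of a large prime there are no exponents -/
lemma block (hθ : 1 < θ) (hs : θ + θ' = P) (hp : θ * θ' = -1) {β B : ℝ} {l j : ℕ} {g0 g1 : ℤ}
    {q : ℕ} (hj : Odd j) (hq : q.Prime) (hql : l + j < q) (h0 : ((q : ℤ) ^ 2) ∣ g0)
    (h1 : ((q : ℤ) ^ 2) ∣ g1) {a a' : ℝ} (ha : a * (θ - θ') = g1 - θ' * g0)
    (ha' : a' * (θ - θ') = θ * g0 - g1) (hb1 : a < β * θ ^ l) (hb2 : (β * θ ^ l - a) * θ ^ j ≤ 1 / 2)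
    (hc1 : B * θ' ^ l ≤ a') (hc2 : a' - B * θ' ^ l < θ ^ j / 2) :
    ¬ (W θ θ' β B (l + j)).Prime := by
  have hD := diff_ge hθ hp
  have hD0 : θ - θ' ≠ 0 := by linarith
  have hj0 : (0 : ℝ) < θ ^ j := by positivity
  have hH : (H P g0 g1 j : ℝ) = a * θ ^ j + a' * θ' ^ j := by
    have h := H_form hs hp g0 g1 j
    rw [← ha, ← ha'] at h
    have h2 : ((H P g0 g1 j : ℝ) - (a * θ ^ j + a' * θ' ^ j)) * (θ - θ') = 0 := by
      rw [sub_mul, h]; ring
    rcases mul_eq_zero.1 h2 with h3 | h3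
    · linarith
    · exact absurd h3 hD0
  set z := (β * θ ^ l - a) * θ ^ j + (a' - B * θ' ^ l) * (1 / θ ^ j) with hz
  have hT : T θ θ' β B (l + j) = H P g0 g1 j + z := by
    rw [hH, hz, T, pow_add, pow_add, conj_odd hθ hp hj]
    ring
  have hz0 : 0 < z := by
    have h2 : 0 < (β * θ ^ l - a) * θ ^ j := mul_pos (by linarith) hj0
    have h3 : 0 ≤ (a' - B * θ' ^ l) * (1 / θ ^ j) := mul_nonneg (by linarith) (by positivity)
    linarith
  have hz1 : z < 1 := by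
    have h3 : (a' - B * θ' ^ l) * (1 / θ ^ j) < 1 / 2 := by
      rw [mul_one_div, div_lt_iff₀ hj0]
      linarith
    linarith
  have hd : ((q : ℤ) ^ 2) ∣ H P g0 g1 j := H_dvd h0 h1 j
  unfold W
  rcases le_or_gt (H P g0 g1 j) 0 with h2 | h2
  · have h3 : ⌊T θ θ' β B (l + j)⌋₊ = 0 := by
      rw [Nat.floor_eq_zero, hT]
      have : ((H P g0 g1 j : ℤ) : ℝ) ≤ 0 := by exact_mod_cast h2
      linarith
    rw [h3]
    have : roughPart (l + j) 0 = 1 := by simp [roughPart]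
    rw [this]
    exact Nat.not_prime_one
  · obtain ⟨N, hN⟩ := Int.eq_ofNat_of_zero_le h2.le
    rw [hN] at hd h2 hT
    have h3 : ⌊T θ θ' β B (l + j)⌋₊ = N := by
      rw [hT, Nat.floor_eq_iff (by positivity)]
      push_cast
      constructor <;> linarith
    rw [h3]
    refine not_prime_rough hq hql ?_ ?_
    · exact_mod_cast hd
    · rintro rfl
      simp at h2

/-- the choice of the integer solution -/
lemma pick (hθ : 1 < θ) (hp : θ * θ' = -1) (B X r : ℝ) {q : ℕ} (hq : 2 ≤ q) :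
    ∃ (g0 g1 : ℤ) (a a' : ℝ), ((q : ℤ) ^ 2) ∣ g0 ∧ ((q : ℤ) ^ 2) ∣ g1 ∧
      a * (θ - θ') = g1 - θ' * g0 ∧ a' * (θ - θ') = θ * g0 - g1 ∧ X < a ∧ a ≤ X + 3 * (q : ℝ) ^ 2 ∧
      |B| ≤ a' ∧ a' ≤ (q : ℝ) ^ 2 * (|B| + 1) ∧ (r ≤ a ∨ a + 1 ≤ r) := by
  have hD := diff_ge hθ hp
  set D := θ - θ' with hDd
  have hD0 : 0 < D := by linarith
  have hq2 : (2 : ℝ) ≤ q := by exact_mod_cast hq
  set Q := (q : ℝ) ^ 2 with hQ
  have hQ4 : 4 ≤ Q := by rw [hQ]; nlinarith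
  have hB := abs_nonneg B
  -- the solution with parameter `u`
  have key : ∀ u : ℤ, ∃ (g0 g1 : ℤ) (a a' : ℝ), ((q : ℤ) ^ 2) ∣ g0 ∧ ((q : ℤ) ^ 2) ∣ g1 ∧
      a * D = g1 - θ' * g0 ∧ a' * D = θ * g0 - g1 ∧ Q * (u - |B| - 1 / 2) < a ∧
      a ≤ Q * (u - |B|) ∧ |B| ≤ a' ∧ a' ≤ Q * (|B| + 1) := by
    intro u
    set v := ⌊θ * u - D * |B|⌋ with hv
    have hv1 : (v : ℝ) ≤ θ * u - D * |B| := Int.floor_le _
    have hv2 : θ * u - D * |B| < v + 1 := Int.lt_floor_add_one _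
    set s := θ * u - v with hs
    have hs1 : |B| ≤ s / D := by rw [le_div_iff₀ hD0]; linarith
    have hs2 : s / D < |B| + 1 / 2 := by
      rw [div_lt_iff₀ hD0]
      nlinarith
    refine ⟨(q : ℤ) ^ 2 * u, (q : ℤ) ^ 2 * v, Q * (u - s / D), Q * (s / D), dvd_mul_right _ _,
      dvd_mul_right _ _, ?_, ?_, ?_, ?_, ?_, ?_⟩
    · push_cast
      rw [← hQ]
      have h1 : Q * (u - s / D) * D = Q * (u * D - s) := by field_simp
      rw [h1, hs, hDd]
      ring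
    · push_cast
      rw [← hQ]
      have h1 : Q * (s / D) * D = Q * s := by field_simp
      rw [h1, hs]
      ring
    · exact mul_lt_mul_of_pos_left (by linarith) (by linarith)
    · exact mul_le_mul_of_nonneg_left (by linarith) (by linarith)
    · nlinarith
    · exact mul_le_mul_of_nonneg_left (by linarith) (by linarith)
  set u := ⌈X / Q + |B| + 1 / 2⌉ with hu
  have hu1 : X / Q + |B| + 1 / 2 ≤ u := Int.le_ceil _
  have hu2 : (u : ℝ) < X / Q + |B| + 1 / 2 + 1 := Int.ceil_lt_add_one _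
  have hXQ : Q * (X / Q) = X := by field_simp
  obtain ⟨g0, g1, a, a', k1, k2, k3, k4, k5, k6, k7, k8⟩ := key u
  have e1 : Q * (X / Q) ≤ Q * (u - |B| - 1 / 2) := mul_le_mul_of_nonneg_left (by linarith) (by linarith)
  have e2 : Q * (u - |B|) ≤ Q * (X / Q + 3 / 2) := mul_le_mul_of_nonneg_left (by linarith) (by linarith)
  have e3 : Q * (X / Q + 3 / 2) = X + 3 / 2 * Q := by rw [mul_add, hXQ]; ring
  by_cases hr : r ≤ a ∨ a + 1 ≤ r
  · exact ⟨g0, g1, a, a', k1, k2, k3, k4, by linarith, by linarith, k7, k8, hr⟩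
  · push Not at hr
    obtain ⟨g0', g1', b, b', m1, m2, m3, m4, m5, m6, m7, m8⟩ := key (u + 1)
    push_cast at m5 m6
    have e4 : Q * ((u : ℝ) + 1 - |B| - 1 / 2) = Q * (u - |B|) + Q / 2 := by ring
    have e5 : Q * ((u : ℝ) + 1 - |B|) = Q * (u - |B|) + Q := by ring
    refine ⟨g0', g1', b, b', m1, m2, m3, m4, by linarith, by linarith, m7, m8, Or.inl ?_⟩
    linarith

end Pool.Agent.R500.FB
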