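import Mathlib
import Pool.Agent.R500.MG.Cover

set_option autoImplicit false

/-!
# Windows without primes of length `C log t` in `[t, 3 t]`, for every constant `C`
-/

namespace Pool.Agent.R500.FB

open Filter Topology

/-- runs of composite numbers of length `C log t` starting in `[t, 2 t]` -/
theorem run (C : ℝ) (hC : 0 ≤ C) : ∃ T1 : ℕ, ∀ t ≥ T1, ∃ x : ℕ, t ≤ x ∧ x ≤ 2 * t ∧
    ∀ k : ℕ, 1 ≤ k → (k : ℝ) ≤ C * Real.log t → ¬ (x + k).Prime := by
  obtain ⟨y0, h⟩ := Pool.Agent.R500.MG.cover (⌈4 * C⌉₊ + 1) (by omega)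
  have hl1 : Tendsto (fun t : ℕ => Real.log t) atTop atTop :=
    Real.tendsto_log_atTop.comp tendsto_natCast_atTop_atTop
  obtain ⟨T1, hT1⟩ := eventually_atTop.1 ((hl1.eventually_ge_atTop (3 * (y0 + 1) : ℝ)).and
    ((hl1.eventually_ge_atTop 20).and (eventually_ge_atTop 2)))
  refine ⟨T1, fun t ht => ?_⟩
  obtain ⟨b1, b2, b3⟩ := hT1 t ht
  have ht0 : (0 : ℝ) < t := by exact_mod_cast (by omega : 0 < t)
  set y := ⌊Real.log t / 3⌋₊ with hy
  have hy1 : (y : ℝ) ≤ Real.log t / 3 := Nat.floor_le (by linarith)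
  have hy2 : Real.log t / 3 < y + 1 := Nat.lt_floor_add_one _
  have hyy0 : y0 ≤ y := by
    have : (y0 : ℝ) < y + 1 := by linarith
    have h2 : y0 < y + 1 := by exact_mod_cast this
    omega
  obtain ⟨n0, hn0⟩ := h y hyy0
  set P := primorial (2 * y) with hP
  have hP0 : 0 < P := primorial_pos _
  have hPt : P ≤ t := by
    have h1 : (P : ℝ) ≤ (4 : ℝ) ^ (2 * y) := by exact_mod_cast primorial_le_four_pow (2 * y)
    have h2 : (4 : ℝ) ^ (2 * y) = Real.exp (((2 * y : ℕ) : ℝ) * Real.log 4) := by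
      rw [Real.exp_nat_mul, Real.exp_log (by norm_num)]
    have h3 : Real.log 4 = 2 * Real.log 2 := by
      rw [show (4 : ℝ) = 2 ^ 2 by norm_num, Real.log_pow]
      push_cast
      ring
    have h4 : ((2 * y : ℕ) : ℝ) * Real.log 4 ≤ Real.log t := by
      rw [h3]
      push_cast
      have h5 := Real.log_two_lt_d9
      have h6 : 0 < Real.log 2 := Real.log_pos (by norm_num)
      have h7 : (0 : ℝ) ≤ y := Nat.cast_nonneg y
      nlinarith
    have h5 : (P : ℝ) ≤ t := by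
      rw [h2] at h1
      refine h1.trans ((Real.exp_le_exp.2 h4).trans ?_)
      rw [Real.exp_log ht0]
    exact_mod_cast h5
  set x := t + (n0 + t * (P - 1)) % P with hx
  have hmod : (n0 + t * (P - 1)) % P < P := Nat.mod_lt _ hP0
  refine ⟨x, by omega, by omega, fun k hk1 hk2 hprime => ?_⟩
  have hky : k ≤ (⌈4 * C⌉₊ + 1) * y := by
    have h1 : 4 * C ≤ (⌈4 * C⌉₊ : ℝ) := Nat.le_ceil _
    have h2 : Real.log t / 4 ≤ y := by linarith
    have h3 : (0 : ℝ) ≤ y := Nat.cast_nonneg y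
    have : (k : ℝ) ≤ (((⌈4 * C⌉₊ + 1) * y : ℕ) : ℝ) := by
      push_cast
      calc (k : ℝ) ≤ C * Real.log t := hk2
        _ = 4 * C * (Real.log t / 4) := by ring
        _ ≤ 4 * C * y := mul_le_mul_of_nonneg_left h2 (by positivity)
        _ ≤ ⌈4 * C⌉₊ * y := mul_le_mul_of_nonneg_right h1 h3
        _ ≤ (⌈4 * C⌉₊ + 1) * y := by nlinarith
    exact_mod_cast this
  obtain ⟨p, hp, hp2, hpd⟩ := hn0 k hky
  have hpP : p ∣ P := by
    rw [hP, primorial]
    exact Finset.dvd_prod_of_mem _ (Finset.mem_filter.2 ⟨Finset.mem_range.2 (by omega), hp⟩)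
  have hxn : x ≡ n0 [MOD P] := by
    have h1 : (n0 + t * (P - 1)) % P ≡ n0 + t * (P - 1) [MOD P] := Nat.mod_modEq _ _
    have h2 : x ≡ t + (n0 + t * (P - 1)) [MOD P] := Nat.ModEq.add_left t h1
    have h3 : t + (n0 + t * (P - 1)) = n0 + P * t := by
      obtain ⟨P', hP'⟩ : ∃ P', P = P' + 1 := ⟨P - 1, by omega⟩
      rw [hP', Nat.add_sub_cancel]
      ring
    rw [h3] at h2
    refine h2.trans ?_
    have h4 : P * t ≡ 0 [MOD P] := (Nat.modEq_zero_iff_dvd).2 (dvd_mul_right _ _)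
    simpa using Nat.ModEq.add_left n0 h4
  have hdx : p ∣ x + k := by
    have h1 : x + k ≡ n0 + k [MOD p] := (hxn.add_right k).of_dvd hpP
    exact (Nat.modEq_zero_iff_dvd).1 (h1.trans ((Nat.modEq_zero_iff_dvd).2 hpd))
  have hpx : p = x + k := (Nat.prime_dvd_prime_iff_eq hp hprime).1 hdx
  have h8 : (x : ℝ) + k ≤ 2 * (Real.log t / 3) := by
    have h9 : ((x + k : ℕ) : ℝ) ≤ ((2 * y : ℕ) : ℝ) := by exact_mod_cast hpx ▸ hp2
    push_cast at h9
    linarith
  have h9 : Real.log t ≤ t := by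
    have := Real.log_le_sub_one_of_pos ht0
    linarith
  have h10 : (t : ℝ) ≤ x := by exact_mod_cast (by omega : t ≤ x)
  have h11 : (0 : ℝ) ≤ k := Nat.cast_nonneg k
  linarith

end Pool.Agent.R500.FB
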