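import Mathlib
import Pool.Agent.R500.FB.Base
import Pool.Agent.R500.FB.Run

set_option autoImplicit false

/-!
# The construction of amplitudes with finitely many exponents
-/

namespace Pool.Agent.R500.FB

open Filter Topology Set

/-- no primes in `(s, s + C log s]` -/
def Free (C : ℝ) (s : ℕ) : Prop := ∀ k : ℕ, 1 ≤ k → (k : ℝ) ≤ C * Real.log s → ¬ (s + k).Prime

lemma free_exists (C : ℝ) (hC : 0 ≤ C) : ∃ T1 : ℕ, ∀ t ≥ T1, ∃ x : ℕ, t ≤ x ∧ x ≤ 2 * t ∧ Free C x := by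
  obtain ⟨T1, h⟩ := run (2 * C) (by positivity)
  refine ⟨max T1 2, fun t ht => ?_⟩
  obtain ⟨x, h1, h2, h3⟩ := h t (by omega)
  refine ⟨x, h1, h2, fun k hk1 hk2 => h3 k hk1 ?_⟩
  have ht2 : (2 : ℝ) ≤ t := by exact_mod_cast (by omega : 2 ≤ t)
  have hx0 : (0 : ℝ) < x := by exact_mod_cast (by omega : 0 < x)
  have h4 : Real.log x ≤ 2 * Real.log t := by
    calc Real.log x ≤ Real.log ((t : ℝ) * t) := Real.log_le_log hx0 (by
          have : (x : ℝ) ≤ 2 * t := by exact_mod_cast h2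
          nlinarith)
      _ = 2 * Real.log t := by rw [Real.log_mul (by positivity) (by positivity)]; ring
  calc (k : ℝ) ≤ C * Real.log x := hk2
    _ ≤ C * (2 * Real.log t) := mul_le_mul_of_nonneg_left h4 hC
    _ = 2 * C * Real.log t := by ring

variable {θ θ' : ℝ} {P : ℤ}

lemma step (hθ : 1 < θ) (hs : θ + θ' = P) (hp : θ * θ' = -1) (B : ℝ) :
    ∃ S0 : ℕ, ∀ s ≥ S0, Free (5 / Real.log θ) s → ∀ x r : ℝ, ∃ (x' : ℝ) (s' : ℕ), s < s' ∧
      Free (5 / Real.log θ) s' ∧ x < x' ∧ x' + 1 / (2 * θ ^ s') < x + 1 / (2 * θ ^ s) ∧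
      (r ≤ x' ∨ x' + 1 / (2 * θ ^ s') ≤ r) ∧
      ∀ β : ℝ, x' < β → β < x' + 1 / (2 * θ ^ s') → ∀ p : ℕ, p.Prime → s < p → p ≤ s' →
        ¬ (W θ θ' β B p).Prime := by
  have hlθ : 0 < Real.log θ := Real.log_pos hθ
  have hθ0 : 0 < θ := by linarith
  set K0 := 400 * (2 * |B| + 1) with hK0
  have hB := abs_nonneg B
  have hpow : Tendsto (fun n : ℕ => θ ^ n) atTop atTop := tendsto_pow_atTop_atTop_of_one_lt hθ
  obtain ⟨e, he⟩ := (hpow.eventually_ge_atTop K0).exists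
  obtain ⟨T1, hT1⟩ := free_exists (5 / Real.log θ) (by positivity)
  have hl1 : Tendsto (fun t : ℕ => Real.log t) atTop atTop :=
    Real.tendsto_log_atTop.comp tendsto_natCast_atTop_atTop
  have hlin : ∀ᶠ s : ℕ in atTop, 5 / Real.log θ * Real.log s ≤ s := by
    have h3 := (Real.isLittleO_log_id_atTop).bound (show (0 : ℝ) < Real.log θ / 5 by positivity)
    have h4 := tendsto_natCast_atTop_atTop (R := ℝ) |>.eventually h3
    filter_upwards [h4, eventually_ge_atTop 1] with s h5 h6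
    have hs1 : (1 : ℝ) ≤ s := by exact_mod_cast h6
    rw [Real.norm_of_nonneg (Real.log_nonneg hs1)] at h5
    simp only [id, Real.norm_natCast] at h5
    rw [div_mul_eq_mul_div, div_le_iff₀ hlθ]
    linarith
  obtain ⟨S1, hS1⟩ := eventually_atTop.1 (hlin.and ((hl1.eventually_ge_atTop
    ((2 * e + 3) * Real.log θ)).and (eventually_ge_atTop (max T1 2))))
  refine ⟨S1, fun s hsS hfree x r => ?_⟩
  obtain ⟨c1, c2, c3⟩ := hS1 s hsS
  have hs2 : 2 ≤ s := (le_max_right _ _).trans c3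
  have hs2r : (2 : ℝ) ≤ s := by exact_mod_cast hs2
  set r0 := ⌈2 * Real.log s / Real.log θ⌉₊ with hr0
  have hr1 : 2 * Real.log s / Real.log θ ≤ r0 := Nat.le_ceil _
  have hlogs : 0 ≤ Real.log s := Real.log_nonneg (by linarith)
  have hr2 : (r0 : ℝ) < 2 * Real.log s / Real.log θ + 1 := Nat.ceil_lt_add_one (by positivity)
  have hr0pos : 0 < r0 := Nat.ceil_pos.2 (by
    have : 0 < Real.log s := Real.log_pos (by linarith)
    positivity)
  have hθr : (s : ℝ) ^ 2 ≤ θ ^ r0 := by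
    rw [← Real.log_le_log_iff (by positivity) (by positivity), Real.log_pow, Real.log_pow]
    rw [div_le_iff₀ hlθ] at hr1
    push_cast
    linarith
  have hθre : (s : ℝ) ^ 2 * K0 ≤ θ ^ (r0 + e) := by
    rw [pow_add]
    exact mul_le_mul hθr he (by positivity) (by positivity)
  obtain ⟨l, hl1', hl2, hleven⟩ : ∃ l : ℕ, s + r0 + e ≤ l ∧ l ≤ s + r0 + e + 1 ∧ Even l := by
    rcases Nat.even_or_odd (s + r0 + e) with h | h
    · exact ⟨_, le_rfl, by omega, h⟩
    · exact ⟨s + r0 + e + 1, by omega, le_rfl, h.add_one⟩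
  set m := l + (r0 + e) with hm
  have hms : ((m - s : ℕ) : ℝ) ≤ 5 / Real.log θ * Real.log s := by
    have h1 : m - s ≤ 2 * r0 + 2 * e + 1 := by omega
    have h2 : ((m - s : ℕ) : ℝ) ≤ 2 * r0 + 2 * e + 1 := by exact_mod_cast h1
    have h3 : (2 * e + 3 : ℝ) ≤ Real.log s / Real.log θ := by rwa [le_div_iff₀ hlθ]
    have h4 : 5 / Real.log θ * Real.log s = 5 * (Real.log s / Real.log θ) := by ring
    have h5 : 2 * Real.log s / Real.log θ = 2 * (Real.log s / Real.log θ) := by ring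
    rw [h5] at hr2
    rw [h4]
    linarith
  have hm2s : m ≤ 2 * s := by
    have h1 : ((m - s : ℕ) : ℝ) ≤ s := hms.trans c1
    have h2 : m - s ≤ s := by exact_mod_cast h1
    omega
  obtain ⟨s', hs'1, hs'2, hs'3⟩ := hT1 m (by omega)
  obtain ⟨q, hq, hq1, hq2⟩ := Nat.exists_prime_lt_and_le_two_mul (4 * s) (by omega)
  have hq8 : (q : ℝ) ≤ 8 * s := by exact_mod_cast (by omega : q ≤ 8 * s)
  have hqsq : (q : ℝ) ^ 2 ≤ 64 * (s : ℝ) ^ 2 := by
    calc (q : ℝ) ^ 2 ≤ (8 * s) ^ 2 := pow_le_pow_left₀ (Nat.cast_nonneg q) hq8 2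
      _ = 64 * (s : ℝ) ^ 2 := by ring
  obtain ⟨g0, g1, a, a', k1, k2, k3, k4, k5, k6, k7, k8, k9⟩ := pick hθ hp B (x * θ ^ l) (r * θ ^ l)
    hq.two_le
  have hl0 : 0 < θ ^ l := by positivity
  have hs0 : 0 < θ ^ s := by positivity
  have hs'0 : 0 < θ ^ s' := by positivity
  have hls' : l ≤ s' := by omega
  have hpl : θ ^ l ≤ θ ^ s' := pow_le_pow_right₀ hθ.le hls'
  have hratio : 1 / (2 * θ ^ s') * θ ^ l ≤ 1 / 2 := by
    rw [one_div_mul_eq_div, div_le_div_iff₀ (by positivity) (by norm_num)]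
    linarith
  refine ⟨a / θ ^ l, s', by omega, hs'3, ?_, ?_, ?_, ?_⟩
  · rwa [lt_div_iff₀ hl0]
  · refine lt_of_mul_lt_mul_right ?_ hl0.le
    rw [add_mul, add_mul, div_mul_cancel₀ a hl0.ne']
    have h1 : θ ^ (r0 + e) / 2 ≤ 1 / (2 * θ ^ s) * θ ^ l := by
      have h2 : θ ^ (r0 + e) ≤ θ ^ (l - s) := pow_le_pow_right₀ hθ.le (by omega)
      have h3 : θ ^ l = θ ^ (l - s) * θ ^ s := by rw [← pow_add]; congr 1; omega
      rw [h3]
      have h4 : 1 / (2 * θ ^ s) * (θ ^ (l - s) * θ ^ s) = θ ^ (l - s) / 2 := by field_simp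
      rw [h4]
      linarith
    have h5 : (400 : ℝ) ≤ K0 := by rw [hK0]; linarith
    have h6 : (s : ℝ) ^ 2 * 400 ≤ (s : ℝ) ^ 2 * K0 := mul_le_mul_of_nonneg_left h5 (by positivity)
    have h7 : (4 : ℝ) ≤ (s : ℝ) ^ 2 := by nlinarith
    linarith
  · rcases k9 with h1 | h1
    · left
      rwa [le_div_iff₀ hl0]
    · right
      rw [← mul_le_mul_iff_left₀ hl0, add_mul, div_mul_cancel₀ a hl0.ne']
      linarith
  · intro β hβ1 hβ2 p hpp hp1 hp2
    by_cases hpm : p ≤ m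
    · exfalso
      refine hfree (p - s) (by omega) ?_ (by rwa [show s + (p - s) = p by omega])
      have : ((p - s : ℕ) : ℝ) ≤ ((m - s : ℕ) : ℝ) := by exact_mod_cast (by omega : p - s ≤ m - s)
      exact this.trans hms
    · push Not at hpm
      obtain ⟨j, rfl⟩ : ∃ j, p = l + j := ⟨p - l, by omega⟩
      have hodd : Odd (l + j) := hpp.odd_of_ne_two (by omega)
      have hj : Odd j := by
        rcases Nat.even_or_odd j with h | h
        · exact absurd hodd (Nat.not_odd_iff_even.2 (hleven.add h))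
        · exact h
      have hj0 : 0 < θ ^ j := by positivity
      have hjge : θ ^ (r0 + e) ≤ θ ^ j := pow_le_pow_right₀ hθ.le (by omega)
      have hcl : θ' ^ l = 1 / θ ^ l := conj_even hθ hp hleven
      have hinv : 1 / θ ^ l ≤ 1 := by
        rw [div_le_one hl0]
        exact one_le_pow₀ hθ.le
      have hBabs : |B * θ' ^ l| ≤ |B| := by
        rw [hcl, abs_mul, abs_of_pos (show 0 < 1 / θ ^ l by positivity)]
        nlinarith
      have hB1 := (abs_le.1 hBabs).1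
      have hB2 := (abs_le.1 hBabs).2
      refine block hθ hs hp hj hq (by omega) k1 k2 k3 k4 ?_ ?_ (hB2.trans k7) ?_
      · rwa [div_lt_iff₀ hl0] at hβ1
      · have h1 : β * θ ^ l - a ≤ 1 / (2 * θ ^ s') * θ ^ l := by
          have h2 := mul_lt_mul_of_pos_right hβ2 hl0
          rw [add_mul, div_mul_cancel₀ a hl0.ne'] at h2
          linarith
        have h3 : (β * θ ^ l - a) * θ ^ j ≤ 1 / (2 * θ ^ s') * θ ^ l * θ ^ j :=
          mul_le_mul_of_nonneg_right h1 hj0.le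
        refine h3.trans ?_
        rw [mul_assoc, ← pow_add, one_div_mul_eq_div, div_le_div_iff₀ (by positivity) (by norm_num)]
        have h4 : θ ^ (l + j) ≤ θ ^ s' := pow_le_pow_right₀ hθ.le hp2
        linarith
      · have h1 : (q : ℝ) ^ 2 * (|B| + 1) ≤ 64 * (s : ℝ) ^ 2 * (|B| + 1) :=
          mul_le_mul_of_nonneg_right hqsq (by positivity)
        have h7 : (4 : ℝ) ≤ (s : ℝ) ^ 2 := by nlinarith
        have h8 : |B| ≤ (s : ℝ) ^ 2 * |B| := by nlinarith
        have h9 : (s : ℝ) ^ 2 * K0 ≤ θ ^ j := hθre.trans hjge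
        rw [hK0] at h9
        have h10 : 0 ≤ (s : ℝ) ^ 2 * |B| := by positivity
        nlinarith

end Pool.Agent.R500.FB
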