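import Mathlib
import Pool.Agent.R500.FB.Step

set_option autoImplicit false

/-!
# Amplitudes with finitely many exponents, for recurrences of order two
-/

namespace Pool.Agent.R500.FB

open Filter Topology Set

variable {θ θ' : ℝ} {P : ℤ}

/-- the limit of the construction -/
theorem build (hθ : 1 < θ) (hs : θ + θ' = P) (hp : θ * θ' = -1) (B : ℝ) :
    ∃ S0 : ℕ, ∀ s ≥ S0, Free (5 / Real.log θ) s → ∀ (x : ℝ) (r : ℕ → ℝ),
      ∃ β : ℝ, x < β ∧ β < x + 1 / (2 * θ ^ s) ∧ (∀ k, β ≠ r k) ∧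
        ∀ p : ℕ, p.Prime → s < p → ¬ (W θ θ' β B p).Prime := by
  classical
  obtain ⟨S0, h⟩ := step hθ hs hp B
  refine ⟨S0, fun s0 hs0 hf0 x0 r => ?_⟩
  set Ok : ℝ × ℕ → Prop := fun z => S0 ≤ z.2 ∧ Free (5 / Real.log θ) z.2 with hOk
  set Nx : ℝ → ℝ × ℕ → ℝ × ℕ → Prop := fun r z z' => z.2 < z'.2 ∧ z.1 < z'.1 ∧
    z'.1 + 1 / (2 * θ ^ z'.2) < z.1 + 1 / (2 * θ ^ z.2) ∧
    (r ≤ z'.1 ∨ z'.1 + 1 / (2 * θ ^ z'.2) ≤ r) ∧
    ∀ β : ℝ, z'.1 < β → β < z'.1 + 1 / (2 * θ ^ z'.2) → ∀ p : ℕ, p.Prime → z.2 < p → p ≤ z'.2 →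
      ¬ (W θ θ' β B p).Prime with hNx
  have hnx : ∀ (r : ℝ) (z : {z : ℝ × ℕ // Ok z}), ∃ z' : {z : ℝ × ℕ // Ok z}, Nx r z.1 z'.1 := by
    intro r z
    obtain ⟨x', s', h1, h2, h3, h4, h5, h6⟩ := h z.1.2 z.2.1 z.2.2 z.1.1 r
    have hz := z.2.1
    exact ⟨⟨(x', s'), ⟨by simp only; omega, h2⟩⟩, h1, h3, h4, h5, h6⟩
  choose nx hnx using hnx
  set Z : ℕ → {z : ℝ × ℕ // Ok z} := fun k => Nat.rec ⟨(x0, s0), ⟨hs0, hf0⟩⟩ (fun k z => nx (r k) z) k
    with hZ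
  have hZ0 : (Z 0).1 = (x0, s0) := rfl
  have hZs : ∀ k, Nx (r k) (Z k).1 (Z (k + 1)).1 := fun k => hnx (r k) (Z k)
  set X : ℕ → ℝ := fun k => (Z k).1.1 with hX
  set S : ℕ → ℕ := fun k => (Z k).1.2 with hS
  set Y : ℕ → ℝ := fun k => X k + 1 / (2 * θ ^ S k) with hY
  have hX1 : ∀ k, X k < X (k + 1) := fun k => (hZs k).2.1
  have hY1 : ∀ k, Y (k + 1) < Y k := fun k => (hZs k).2.2.1
  have hS1 : ∀ k, S k < S (k + 1) := fun k => (hZs k).1
  have hav : ∀ k, r k ≤ X (k + 1) ∨ Y (k + 1) ≤ r k := fun k => (hZs k).2.2.2.1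
  have hW : ∀ k, ∀ β : ℝ, X (k + 1) < β → β < Y (k + 1) → ∀ p : ℕ, p.Prime → S k < p →
      p ≤ S (k + 1) → ¬ (W θ θ' β B p).Prime := fun k => (hZs k).2.2.2.2
  have hXm : StrictMono X := strictMono_nat_of_lt_succ hX1
  have hYm : StrictAnti Y := strictAnti_nat_of_succ_lt hY1
  have hSm : StrictMono S := strictMono_nat_of_lt_succ hS1
  have hXY : ∀ k, X k < Y k := fun k => by
    have : 0 < 1 / (2 * θ ^ S k) := by positivity
    simp only [hY]
    linarith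
  have hup : ∀ k m, X m ≤ Y k := by
    intro k m
    rcases le_total m k with h1 | h1
    · exact (hXm.monotone h1).trans (hXY k).le
    · exact (hXY m).le.trans (hYm.antitone h1)
  have hbdd : BddAbove (range X) := ⟨Y 0, by rintro _ ⟨m, rfl⟩; exact hup 0 m⟩
  set β := ⨆ k, X k with hβ
  have hlo : ∀ k, X k < β := fun k => lt_of_lt_of_le (hX1 k) (le_ciSup hbdd (k + 1))
  have hhi : ∀ k, β < Y k := fun k => lt_of_le_of_lt (ciSup_le fun m => hup (k + 1) m) (hY1 k)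
  refine ⟨β, hlo 0, hhi 0, fun k hk => ?_, fun p hpp hp0 => ?_⟩
  · rcases hav k with h1 | h1
    · have := hlo (k + 1)
      rw [hk] at this
      exact absurd h1 (not_le.2 this)
    · have := hhi (k + 1)
      rw [hk] at this
      exact absurd h1 (not_le.2 this)
  · have hex : ∃ k, p ≤ S k := ⟨p, hSm.id_le p⟩
    set K := Nat.find hex with hK
    have h1 : p ≤ S K := Nat.find_spec hex
    have h2 : K ≠ 0 := by
      intro h0
      rw [h0] at h1
      have : S 0 = s0 := rfl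
      omega
    have h3 : S (K - 1) < p := by
      have := Nat.find_min hex (m := K - 1) (by omega)
      omega
    have h4 : K - 1 + 1 = K := by omega
    exact hW (K - 1) β (hlo (K - 1 + 1)) (hhi (K - 1 + 1)) p hpp h3 (by rw [h4]; exact h1)

/-- every interval contains an amplitude without exponents beyond some point, outside any given
countable set -/
theorem exists_few (hθ : 1 < θ) (hs : θ + θ' = P) (hp : θ * θ' = -1) (B : ℝ) {u v : ℝ}
    (huv : u < v) (r : ℕ → ℝ) : ∃ β ∈ Ioo u v, (∀ k, β ≠ r k) ∧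
      {p : ℕ | p.Prime ∧ (W θ θ' β B p).Prime}.Finite := by
  obtain ⟨S0, h⟩ := build hθ hs hp B
  have hlθ : 0 < Real.log θ := Real.log_pos hθ
  obtain ⟨T1, hT1⟩ := free_exists (5 / Real.log θ) (by positivity)
  have hpow : Tendsto (fun n : ℕ => θ ^ n) atTop atTop := tendsto_pow_atTop_atTop_of_one_lt hθ
  obtain ⟨t0, ht0⟩ := eventually_atTop.1 (hpow.eventually_ge_atTop (1 / (v - u)))
  obtain ⟨s, hs1, _, hs3⟩ := hT1 (max T1 (max S0 t0)) (le_max_left _ _)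
  have h1 := ht0 s (by omega)
  obtain ⟨β, h2, h3, h4, h5⟩ := h s (by omega) hs3 ((u + v) / 2) r
  have hs0 : 0 < θ ^ s := by positivity
  have h6 : 1 / (2 * θ ^ s) ≤ (v - u) / 2 := by
    rw [div_le_iff₀ (by linarith)] at h1
    rw [div_le_div_iff₀ (by positivity) (by norm_num)]
    linarith
  refine ⟨β, ⟨by linarith, by linarith⟩, h4, (Set.finite_Iic s).subset fun p hpp => ?_⟩
  rw [Set.mem_Iic]
  by_contra hcon
  exact h5 p hpp.1 (by omega) hpp.2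

/-- **Every interval contains uncountably many amplitudes with finitely many exponents.** -/
theorem few (hθ : 1 < θ) (hs : θ + θ' = P) (hp : θ * θ' = -1) (B : ℝ) {u v : ℝ} (huv : u < v) :
    ¬ {β : ℝ | β ∈ Ioo u v ∧ {p : ℕ | p.Prime ∧ (W θ θ' β B p).Prime}.Finite}.Countable := by
  intro hcount
  obtain ⟨β0, hβ0, _, h0⟩ := exists_few hθ hs hp B huv (fun _ => 0)
  obtain ⟨r, hr⟩ := hcount.exists_eq_range ⟨β0, hβ0, h0⟩
  obtain ⟨β, hβ, hne, h1⟩ := exists_few hθ hs hp B huv r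
  have h2 : β ∈ range r := by
    rw [← hr]
    exact ⟨hβ, h1⟩
  obtain ⟨k, hk⟩ := h2
  exact hne k hk.symm

end Pool.Agent.R500.FB
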