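import Mathlib
import Pool.Agent.R500.FB.Few
import Pool.Agent.R500.MH.Generic

set_option autoImplicit false

/-!
# The generic amplitude, for recurrences of order two
-/

namespace Pool.Agent.R500.FB

open Filter Topology Set Asymptotics

variable {θ θ' : ℝ} {P : ℤ}

/-- The number of primes `p ≤ n` for which `W β B p` is prime. -/
noncomputable def M (θ θ' β B : ℝ) (n : ℕ) : ℕ :=
  ((Finset.range (n + 1)).filter (fun p => p.Prime ∧ (W θ θ' β B p).Prime)).card

lemma M_succ (β B : ℝ) (n : ℕ) : M θ θ' β B (n + 1) ≤ M θ θ' β B n + 1 := by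
  unfold M
  rw [Finset.range_add_one (n := n + 1), Finset.filter_insert]
  split_ifs
  · exact Finset.card_insert_le _ _
  · omega

/-- the values do not change slightly to the right -/
lemma stable (hθ : 1 < θ) (β0 B : ℝ) (n : ℕ) : ∃ u > β0, ∀ β ∈ Ioo β0 u,
    M θ θ' β B n = M θ θ' β0 B n := by
  have hθ0 : 0 < θ := by linarith
  have h1 : ∀ p ∈ Finset.range (n + 1), ∀ᶠ β in 𝓝[>] β0, W θ θ' β B p = W θ θ' β0 B p := by
    intro p _
    have hc : Continuous (fun β : ℝ => T θ θ' β B p) := by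
      unfold T
      fun_prop
    have h2 : ∀ᶠ β in 𝓝 β0, T θ θ' β B p < ⌊T θ θ' β0 B p⌋₊ + 1 :=
      (hc.continuousAt (x := β0)).eventually_lt_const (Nat.lt_floor_add_one _)
    have h3 : ∀ᶠ β in 𝓝[>] β0, T θ θ' β B p < ⌊T θ θ' β0 B p⌋₊ + 1 := h2.filter_mono nhdsWithin_le_nhds
    filter_upwards [h3, self_mem_nhdsWithin] with β h4 h5
    have h6 : T θ θ' β0 B p ≤ T θ θ' β B p := by
      unfold T
      have : β0 * θ ^ p ≤ β * θ ^ p := mul_le_mul_of_nonneg_right (le_of_lt h5) (by positivity)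
      linarith
    have h7 : ⌊T θ θ' β B p⌋₊ = ⌊T θ θ' β0 B p⌋₊ := by
      refine le_antisymm ?_ (Nat.floor_mono h6)
      have h8 : ⌊T θ θ' β B p⌋₊ < ⌊T θ θ' β0 B p⌋₊ + 1 := by
        rw [Nat.floor_lt' (by omega)]
        push_cast
        exact h4
      omega
    unfold W
    rw [h7]
  have h2 : ∀ᶠ β in 𝓝[>] β0, ∀ p ∈ Finset.range (n + 1), W θ θ' β B p = W θ θ' β0 B p :=
    (Finset.eventually_all _).2 h1
  obtain ⟨u, hu, hsub⟩ := mem_nhdsGT_iff_exists_Ioo_subset.1 h2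
  refine ⟨u, hu, fun β hβ => ?_⟩
  have h3 := hsub hβ
  unfold M
  congr 1
  refine Finset.filter_congr fun p hp => ?_
  rw [h3 p hp]

/-- for the generic amplitude there are few exponents up to infinitely many `n` -/
theorem generic_low (hθ : 1 < θ) (hs : θ + θ' = P) (hp : θ * θ' = -1) (B : ℝ) {f : ℕ → ℝ}
    (hf : Tendsto f atTop atTop) : ∀ᶠ β : ℝ in residual ℝ, 0 < β →
      ∃ᶠ n : ℕ in atTop, (M θ θ' β B n : ℝ) < f n := by
  refine Pool.Agent.R500.MH.generic fun k x y _ hxy => ?_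
  obtain ⟨β0, hβ0, _, hfin⟩ := exists_few hθ hs hp B hxy (fun _ => 0)
  set K := hfin.toFinset.card with hK
  have hM : ∀ n, M θ θ' β0 B n ≤ K := by
    intro n
    refine Finset.card_le_card fun p hp => ?_
    rw [Set.Finite.mem_toFinset]
    exact (Finset.mem_filter.1 hp).2
  obtain ⟨n, hn1, hn2⟩ := ((hf.eventually_gt_atTop (K : ℝ)).and (eventually_ge_atTop k)).exists
  obtain ⟨u, hu, h1⟩ := stable (θ' := θ') hθ β0 B n
  refine ⟨β0, min u y, hβ0.1.le, lt_min hu hβ0.2, min_le_right _ _, fun β hβ => ⟨n, hn2, ?_⟩⟩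
  rw [h1 β ⟨hβ.1, lt_of_lt_of_le hβ.2 (min_le_left _ _)⟩]
  have : (M θ θ' β0 B n : ℝ) ≤ K := by exact_mod_cast hM n
  linarith

/-- for the generic amplitude there are as many exponents as for almost every amplitude, up to
infinitely many `n` -/
theorem generic_high (hθ : 1 < θ) (B : ℝ) {c c' : ℝ} (hc : c' < c)
    (hlaw : ∀ᵐ β : ℝ, 0 < β → Tendsto (fun n : ℕ => (M θ θ' β B n : ℝ) / Real.log n) atTop (𝓝 c)) :
    ∀ᶠ β : ℝ in residual ℝ, 0 < β →
      ∃ᶠ n : ℕ in atTop, c' < (M θ θ' β B n : ℝ) / Real.log n := by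
  refine Pool.Agent.R500.MH.generic fun k x y hx hxy => ?_
  obtain ⟨β0, hβ0, hβ1⟩ := (MeasureTheory.Measure.dense_of_ae hlaw).exists_between hxy
  have hl := (hβ0 (hx.trans hβ1.1)).eventually_const_lt hc
  obtain ⟨n, hn1, hn2⟩ := (hl.and (eventually_ge_atTop k)).exists
  obtain ⟨u, hu, h1⟩ := stable (θ' := θ') hθ β0 B n
  refine ⟨β0, min u y, hβ1.1.le, lt_min hu hβ1.2, min_le_right _ _, fun β hβ => ⟨n, hn2, ?_⟩⟩
  rw [h1 β ⟨hβ.1, lt_of_lt_of_le hβ.2 (min_le_left _ _)⟩]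
  exact hn1

/-- limit points of a sequence with small increments -/
lemma cluster {a : ℕ → ℝ} {c0 : ℝ} (hc0 : 0 < c0) (hlow : ∀ c : ℝ, 0 < c → ∃ᶠ n in atTop, a n < c)
    (hhigh : ∀ C : ℝ, C < c0 → ∃ᶠ n in atTop, C < a n)
    (hinc : ∀ ε : ℝ, 0 < ε → ∀ᶠ n in atTop, a (n + 1) ≤ a n + ε) {c : ℝ} (hc : 0 ≤ c)
    (hcc : c ≤ c0) : MapClusterPt c atTop a := by
  have key : ∀ c : ℝ, 0 ≤ c → c < c0 → MapClusterPt c atTop a := by
    intro c hc hcc
    rw [mapClusterPt_iff_frequently]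
    intro s hs
    obtain ⟨ε, hε, hball⟩ := Metric.mem_nhds_iff.1 hs
    rw [frequently_atTop]
    intro N
    obtain ⟨N0, hN0⟩ := eventually_atTop.1 (hinc (ε / 2) (by positivity))
    obtain ⟨n1, hn1, hn1'⟩ := frequently_atTop.1 (hlow (c + ε / 2) (by linarith)) (max N N0)
    classical
    have hex : ∃ n, n1 ≤ n ∧ c ≤ a n := by
      obtain ⟨n, hn, hn'⟩ := frequently_atTop.1 (hhigh c hcc) n1
      exact ⟨n, hn, hn'.le⟩
    set n := Nat.find hex with hn
    obtain ⟨h1, h2⟩ := Nat.find_spec hex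
    rw [← hn] at h1 h2
    refine ⟨n, le_trans (le_of_max_le_left hn1) h1, hball ?_⟩
    rw [Metric.mem_ball, Real.dist_eq, abs_lt]
    refine ⟨by linarith, ?_⟩
    rcases eq_or_lt_of_le h1 with h3 | h3
    · rw [← h3]; linarith
    · have h4 := Nat.find_min hex (m := n - 1) (by omega)
      push Not at h4
      have h5 := h4 (by omega)
      have h6 := hN0 (n - 1) (by omega)
      rw [show n - 1 + 1 = n by omega] at h6
      linarith
  rcases hcc.lt_or_eq with h | rfl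
  · exact key c hc h
  · have hcl : IsClosed {x : ℝ | MapClusterPt x atTop a} := isClosed_setOf_clusterPt
    have h1 : Ico 0 c ⊆ {x : ℝ | MapClusterPt x atTop a} := fun x hx => key x hx.1 hx.2
    have h2 := hcl.closure_subset_iff.2 h1
    rw [closure_Ico hc0.ne] at h2
    exact h2 ⟨hc0.le, le_rfl⟩

lemma tendsto_of_bigO {F : ℕ → ℝ} {c : ℝ} (h : (fun n : ℕ => F n - c * Real.log n) =O[atTop]
    fun n : ℕ => Real.sqrt (Real.log n) * (Real.log (Real.log n)) ^ ((5 : ℝ) / 2)) :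
    Tendsto (fun n : ℕ => F n / Real.log n) atTop (𝓝 c) := by
  have hlogt : Tendsto (fun n : ℕ => Real.log n) atTop atTop :=
    Real.tendsto_log_atTop.comp tendsto_natCast_atTop_atTop
  have h1 : (fun x : ℝ => Real.sqrt x * (Real.log x) ^ ((5 : ℝ) / 2)) =o[atTop] fun x : ℝ => x := by
    have h2 := isLittleO_log_rpow_rpow_atTop (5 / 2 : ℝ) (show (0 : ℝ) < 1 / 2 by norm_num)
    have h3 := (isBigO_refl (fun x : ℝ => Real.sqrt x) atTop).mul_isLittleO h2
    refine h3.congr' (Eventually.of_forall fun x => rfl) ?_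
    filter_upwards [eventually_gt_atTop 0] with x hx
    rw [← Real.sqrt_eq_rpow, Real.mul_self_sqrt hx.le]
  have h4 : (fun n : ℕ => F n - c * Real.log n) =o[atTop] fun n : ℕ => Real.log n :=
    h.trans_isLittleO (h1.comp_tendsto hlogt)
  have h5 := h4.tendsto_div_nhds_zero
  have h6 : Tendsto (fun n : ℕ => (F n - c * Real.log n) / Real.log n + c) atTop (𝓝 (0 + c)) :=
    h5.add tendsto_const_nhds
  rw [zero_add] at h6
  refine h6.congr' ?_
  filter_upwards [hlogt.eventually_gt_atTop 0] with n hn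
  field_simp
  ring

/-- **The generic amplitude.** -/
theorem generic_law (hθ : 1 < θ) (hs : θ + θ' = P) (hp : θ * θ' = -1) (B : ℝ) {c0 : ℝ} (hc0 : 0 < c0)
    (hlaw : ∀ᵐ β : ℝ, 0 < β → Tendsto (fun n : ℕ => (M θ θ' β B n : ℝ) / Real.log n) atTop (𝓝 c0)) :
    ∀ᶠ β : ℝ in residual ℝ, 0 < β → ∀ c : ℝ, 0 ≤ c → c ≤ c0 →
      MapClusterPt c atTop (fun n : ℕ => (M θ θ' β B n : ℝ) / Real.log n) := by
  have hlogt : Tendsto (fun n : ℕ => Real.log n) atTop atTop :=
    Real.tendsto_log_atTop.comp tendsto_natCast_atTop_atTop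
  have hf : Tendsto (fun n : ℕ => √(Real.log n)) atTop atTop := Real.tendsto_sqrt_atTop.comp hlogt
  have hhigh : ∀ᶠ β : ℝ in residual ℝ, ∀ k : ℕ, 0 < β →
      ∃ᶠ n : ℕ in atTop, c0 - 1 / (k + 1) < (M θ θ' β B n : ℝ) / Real.log n :=
    eventually_countable_forall.2 fun k => generic_high hθ B
      (by have : (0 : ℝ) < 1 / (k + 1) := by positivity
          linarith) hlaw
  filter_upwards [generic_low hθ hs hp B hf, hhigh] with β hβ1 hβ2 h0 c hc hcc
  have g1 := hβ1 h0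
  refine cluster hc0 (fun c hc => ?_) (fun C hC => ?_) (fun ε hε => ?_) hc hcc
  · have h1 : ∀ᶠ n : ℕ in atTop, (1 / c) < √(Real.log n) := hf.eventually_gt_atTop _
    refine (g1.and_eventually (h1.and (hlogt.eventually_gt_atTop 0))).mono fun n ⟨a1, a2, a3⟩ => ?_
    rw [div_lt_iff₀ a3]
    have a4 : √(Real.log n) * √(Real.log n) = Real.log n := Real.mul_self_sqrt a3.le
    have a5 : 0 < √(Real.log n) := Real.sqrt_pos.2 a3
    rw [div_lt_iff₀ hc] at a2
    have a6 : 1 * √(Real.log n) < √(Real.log n) * c * √(Real.log n) :=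
      mul_lt_mul_of_pos_right a2 a5
    have a7 : √(Real.log n) * c * √(Real.log n) = c * Real.log n := by
      rw [← a4]; ring_nf; rw [Real.sq_sqrt (by positivity)]
    linarith
  · obtain ⟨k, hk⟩ := exists_nat_one_div_lt (show (0 : ℝ) < c0 - C by linarith)
    refine (hβ2 k h0).mono fun n hn => ?_
    linarith
  · have h1 : ∀ᶠ n : ℕ in atTop, 1 / ε < Real.log n := hlogt.eventually_gt_atTop _
    filter_upwards [h1, hlogt.eventually_gt_atTop 0, eventually_ge_atTop 1] with n a1 a2 a3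
    have hn0 : (0 : ℝ) < n := by exact_mod_cast a3
    have h2 : Real.log n ≤ Real.log ((n + 1 : ℕ) : ℝ) := Real.log_le_log hn0 (by push_cast; linarith)
    have h3 : (M θ θ' β B (n + 1) : ℝ) ≤ M θ θ' β B n + 1 := by exact_mod_cast M_succ β B n
    have h4 : (0 : ℝ) ≤ M θ θ' β B n := Nat.cast_nonneg _
    calc (M θ θ' β B (n + 1) : ℝ) / Real.log ((n + 1 : ℕ) : ℝ) ≤ (M θ θ' β B n + 1) / Real.log n := by
          gcongr
      _ = M θ θ' β B n / Real.log n + 1 / Real.log n := by ring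
      _ ≤ M θ θ' β B n / Real.log n + ε := by
          have : 1 / Real.log n ≤ ε := by
            rw [div_le_iff₀ a2]
            rw [div_lt_iff₀ hε] at a1
            linarith
          linarith

end Pool.Agent.R500.FB
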