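import Mathlib
import Pool.Agent.H447R2.ML.Spec
import Pool.Agent.H19P.QA
import Pool.Agent.R500.FB.Generic

set_option autoImplicit false

/-!
# The Fibonacci recurrence
-/

namespace Pool.Agent.R500.FB

open Filter Topology MeasureTheory Asymptotics
open Pool.Agent.R500.MG (roughPart)

/-- The Lucas numbers. -/
def L : ℕ → ℕ
  | 0 => 2
  | 1 => 1
  | (n + 2) => L (n + 1) + L n

/-- The golden ratio. -/
noncomputable def φ : ℝ := (1 + Real.sqrt 5) / 2

/-- The conjugate of the golden ratio. -/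
noncomputable def ψ : ℝ := (1 - Real.sqrt 5) / 2

lemma sqrt5_sq : Real.sqrt 5 ^ 2 = 5 := Real.sq_sqrt (by norm_num)

lemma sqrt5_pos : 0 < Real.sqrt 5 := Real.sqrt_pos.2 (by norm_num)

lemma one_lt_phi : 1 < φ := by
  unfold φ
  nlinarith [sqrt5_sq, sqrt5_pos]

lemma phi_add : φ + ψ = ((1 : ℤ) : ℝ) := by unfold φ ψ; push_cast; ring

lemma phi_mul : φ * ψ = -1 := by unfold φ ψ; nlinarith [sqrt5_sq]

lemma phi_sq : φ ^ 2 = φ + 1 := by unfold φ; nlinarith [sqrt5_sq]

lemma psi_sq : ψ ^ 2 = ψ + 1 := by unfold ψ; nlinarith [sqrt5_sq]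

lemma T_rec (β B : ℝ) (n : ℕ) : T φ ψ β B (n + 2) = T φ ψ β B (n + 1) + T φ ψ β B n := by
  unfold T
  rw [pow_add φ n 2, pow_add ψ n 2, phi_sq, psi_sq]
  ring

/-- the Fibonacci numbers -/
lemma T_fib (n : ℕ) : T φ ψ (1 / Real.sqrt 5) (-(1 / Real.sqrt 5)) n = (Nat.fib n : ℝ) := by
  induction n using Nat.twoStepInduction with
  | zero => simp [T]
  | one =>
    have := sqrt5_pos.ne'
    unfold T φ ψ
    rw [Nat.fib_one]
    field_simp
    push_cast
    ring
  | more n h1 h2 =>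
    rw [T_rec, h1, h2, Nat.fib_add_two]
    push_cast
    ring

/-- the Lucas numbers -/
lemma T_luc (n : ℕ) : T φ ψ 1 1 n = (L n : ℝ) := by
  induction n using Nat.twoStepInduction with
  | zero => norm_num [L, T]
  | one =>
    unfold T
    rw [one_mul, one_mul, pow_one, pow_one, phi_add]
    norm_num [L]
  | more n h1 h2 =>
    rw [T_rec, h1, h2]
    show _ = ((L (n + 1) + L n : ℕ) : ℝ)
    push_cast
    ring

lemma fib_eq (n : ℕ) : Pool.Agent.H447R2.ML.U 1 n = Nat.fib n := by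
  induction n using Nat.twoStepInduction with
  | zero => rfl
  | one => rfl
  | more n h1 h2 =>
    rw [Pool.Agent.H447R2.ML.U_add_two, h1, h2, Nat.fib_add_two]
    ring

lemma luc_eq (n : ℕ) : Pool.Agent.H447R2.ML.V 1 n = L n := by
  induction n using Nat.twoStepInduction with
  | zero => rfl
  | one => rfl
  | more n h1 h2 =>
    show _ = L (n + 1) + L n
    rw [Pool.Agent.H447R2.ML.V_add_two, h1, h2]
    ring

/-- The Fibonacci numbers. -/
lemma W_fib {p : ℕ} (hp : p.Prime) (h5 : 5 < p) :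
    W φ ψ (1 / Real.sqrt 5) (-(1 / Real.sqrt 5)) p = Nat.fib p := by
  have hd : ¬ p ∣ 1 ^ 2 + 4 := by
    intro h
    have := Nat.le_of_dvd (by norm_num) h
    omega
  have h := Pool.Agent.H447R2.ML.rough_U 1 one_pos hp (by omega) hd
    (x := T φ ψ (1 / Real.sqrt 5) (-(1 / Real.sqrt 5)) p) (by rw [T_fib, fib_eq])
  rw [fib_eq] at h
  exact h

/-- The Lucas numbers. -/
lemma W_luc {p : ℕ} (hp : p.Prime) (h5 : 5 < p) : W φ ψ 1 1 p = L p := by
  have hd : ¬ p ∣ 1 := fun h => hp.one_lt.ne' (Nat.dvd_one.1 h)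
  have h : Pool.Agent.H305R2.roughPart p ⌊T φ ψ 1 1 p⌋₊ = L p := by
    rw [T_luc, Nat.floor_natCast]
    refine Pool.Agent.H447R2.ML.roughPart_eq_self ?_ fun q hq h => ?_
    · rw [← luc_eq]
      exact (Pool.Agent.H447R2.ML.V_pos 1 p one_pos).ne'
    · rw [← luc_eq] at h
      exact Pool.Agent.H447R2.ML.lt_of_dvd_V 1 hp (by omega) hd hq
        (fun h' => hq.one_lt.ne' (Nat.dvd_one.1 h')) h
  exact h

lemma M_eq (β B : ℝ) (n : ℕ) : M φ ψ β B n =
    Pool.Agent.TH888.R.cS Set.univ (fun p => ⌊β * φ ^ p + B * ψ ^ p⌋₊) n := by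
  unfold M Pool.Agent.TH888.R.cS W T
  congr 1
  ext p
  simp only [Finset.mem_filter, Set.mem_univ, true_and]
  rfl

/-- the law for almost every amplitude, from the starting files -/
lemma law (B : ℝ) : ∀ᵐ β : ℝ, 0 < β → Tendsto (fun n : ℕ => (M φ ψ β B n : ℝ) / Real.log n) atTop
    (𝓝 (Real.exp Real.eulerMascheroniConstant / Real.log φ)) := by
  filter_upwards [Pool.Agent.H19P.pt_unit one_lt_phi phi_add phi_mul B Set.univ] with β hβ h0
  obtain ⟨B', hB, h⟩ := (hβ h0).law Pool.Agent.TH888.R.VS_univ_tendsto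
  refine tendsto_of_bigO ?_
  simp only [M_eq]
  exact Pool.Agent.TH888.R.bigO_all hB h

/-- **The generic solution of the Fibonacci recurrence.** -/
theorem fib_generic (B : ℝ) : ∀ᶠ β : ℝ in residual ℝ, 0 < β → ∀ c : ℝ, 0 ≤ c →
    c ≤ Real.exp Real.eulerMascheroniConstant / Real.log φ →
      MapClusterPt c atTop (fun n : ℕ => (M φ ψ β B n : ℝ) / Real.log n) :=
  generic_law one_lt_phi phi_add phi_mul B (by
    have := Real.log_pos one_lt_phi
    positivity) (law B)

end Pool.Agent.R500.FB
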